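import Pool.Agent.Lib_helper60.PQ.Defs
import Pool.Agent.Lib_helper90.PNT.WienerIkehara

/-!
PQ, block AP: primes in a residue class (`pi_ap`, `inv_ap`). `ap_prime` and `ap_count` are as in block N7a of TM32.
-/

set_option autoImplicit false

namespace Pool.Agent.PQ

open Finset Filter Topology ArithmeticFunction

/-- prime powers are negligible -/
theorem ap_prime (g : ℕ → ℝ) (B : ℝ) (hg : ∀ n, IsPrimePow n → |g n| ≤ B) (l : ℝ)
    (h : Tendsto (fun x : ℝ => (∑ k ∈ Finset.Icc 1 ⌊x⌋₊, g k * vonMangoldt k) / x) atTop (𝓝 l)) :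
    Tendsto (fun X : ℕ => (∑ p ∈ (Finset.Icc 1 X).filter Nat.Prime, g p * Real.log p) / X)
      atTop (𝓝 l) := by
  obtain ⟨C, hC⟩ := Chebyshev.psi_sub_theta_le_mul_sqrt
  have h1 : Tendsto (fun X : ℕ => (∑ k ∈ Finset.Icc 1 X, g k * vonMangoldt k) / (X : ℝ)) atTop
      (𝓝 l) := by
    refine (h.comp tendsto_natCast_atTop_atTop).congr fun X => ?_
    simp only [Function.comp, Nat.floor_natCast]
  have key : ∀ X : ℕ, |(∑ p ∈ (Finset.Icc 1 X).filter Nat.Prime, g p * Real.log p) -
      ∑ k ∈ Finset.Icc 1 X, g k * vonMangoldt k| ≤ |B| * (C * Real.sqrt X) := by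
    intro X
    rw [← Finset.sum_filter_add_sum_filter_not (Finset.Icc 1 X) Nat.Prime
      (fun k => g k * vonMangoldt k)]
    have e1 : ∑ p ∈ (Finset.Icc 1 X).filter Nat.Prime, g p * Real.log p =
        ∑ p ∈ (Finset.Icc 1 X).filter Nat.Prime, g p * vonMangoldt p := by
      apply Finset.sum_congr rfl
      intro p hp
      rw [vonMangoldt_apply_prime (Finset.mem_filter.1 hp).2]
    rw [e1, sub_add_cancel_left, abs_neg]
    refine (Finset.abs_sum_le_sum_abs _ _).trans ?_
    have e2 := hC X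
    rw [Chebyshev.psi_sub_theta_eq_sum_not_prime, Nat.floor_natCast] at e2
    have e3 : ∑ k ∈ (Finset.Icc 1 X).filter (fun k => ¬ k.Prime), |g k * vonMangoldt k| ≤
        ∑ k ∈ (Finset.Icc 1 X).filter (fun k => ¬ k.Prime), |B| * vonMangoldt k := by
      apply Finset.sum_le_sum
      intro k _
      rw [abs_mul, abs_of_nonneg (vonMangoldt_nonneg (n := k))]
      by_cases hk : IsPrimePow k
      · apply mul_le_mul_of_nonneg_right _ vonMangoldt_nonneg
        exact (hg k hk).trans (le_abs_self B)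
      · rw [vonMangoldt_eq_zero_iff.2 hk, mul_zero, mul_zero]
    refine e3.trans ?_
    rw [← Finset.mul_sum]
    apply mul_le_mul_of_nonneg_left _ (abs_nonneg B)
    refine le_trans ?_ e2
    apply Finset.sum_le_sum_of_subset_of_nonneg
    · intro k hk
      simp only [Finset.mem_filter, Finset.mem_Ioc, Finset.mem_Icc] at hk ⊢
      exact ⟨⟨by omega, hk.1.2⟩, hk.2⟩
    · intro k _ _
      exact vonMangoldt_nonneg
  have h2 : Tendsto (fun X : ℕ => ((∑ p ∈ (Finset.Icc 1 X).filter Nat.Prime, g p * Real.log p) -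
      ∑ k ∈ Finset.Icc 1 X, g k * vonMangoldt k) / (X : ℝ)) atTop (𝓝 0) := by
    have h3 : Tendsto (fun X : ℕ => (|B| * C) * (Real.sqrt X)⁻¹) atTop (𝓝 0) := by
      have := (tendsto_inv_atTop_zero.comp
        (Real.tendsto_sqrt_atTop.comp tendsto_natCast_atTop_atTop)).const_mul (|B| * C)
      rw [mul_zero] at this
      exact this
    apply squeeze_zero_norm' _ h3
    filter_upwards [eventually_gt_atTop 0] with X hX
    have hX' : (0 : ℝ) < X := by exact_mod_cast hX
    rw [Real.norm_eq_abs, abs_div, abs_of_pos hX', div_le_iff₀ hX']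
    refine (key X).trans (le_of_eq ?_)
    have hsq : Real.sqrt X * Real.sqrt X = X := Real.mul_self_sqrt hX'.le
    have hs0 : Real.sqrt X ≠ 0 := (Real.sqrt_pos.2 hX').ne'
    field_simp
    rw [pow_two, hsq]
  have h4 := h1.add h2
  rw [add_zero] at h4
  refine h4.congr fun X => ?_
  rw [← add_div]
  congr 1
  ring

/-- from weights `log n` to counting -/
theorem ap_count (q : ℕ → Prop) [DecidablePred q] {c : ℝ} (hc : 0 < c)
    (h : Tendsto (fun X : ℕ => (∑ p ∈ (Finset.Icc 1 X).filter q, Real.log p) / (X : ℝ)) atTop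
      (𝓝 c)) :
    Tendsto (fun X : ℕ => (((Finset.Icc 1 X).filter q).card : ℝ) * Real.log X / X) atTop (𝓝 c) := by
  -- lower bound
  have low : ∀ X : ℕ, (∑ p ∈ (Finset.Icc 1 X).filter q, Real.log p) ≤
      (((Finset.Icc 1 X).filter q).card : ℝ) * Real.log X := by
    intro X
    rw [← nsmul_eq_mul, ← Finset.sum_const]
    apply Finset.sum_le_sum
    intro p hp
    have hp' := Finset.mem_Icc.1 (Finset.mem_filter.1 hp).1
    apply Real.log_le_log
    · exact_mod_cast hp'.1
    · exact_mod_cast hp'.2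
  have up : ∀ η : ℝ, 0 < η → η < 1 → ∀ X : ℕ, 2 ≤ X →
      (((Finset.Icc 1 X).filter q).card : ℝ) ≤ (X : ℝ) ^ (1 - η) +
        (∑ p ∈ (Finset.Icc 1 X).filter q, Real.log p) / ((1 - η) * Real.log X) := by
    intro η h0 h1 X hX
    have hX1 : (1 : ℝ) < X := by exact_mod_cast (by omega : 1 < X)
    have hlX : 0 < Real.log X := Real.log_pos hX1
    have hpos : 0 < (1 - η) * Real.log X := mul_pos (by linarith) hlX
    have s1 : (((Finset.Icc 1 X).filter q).card : ℝ) =
        ((((Finset.Icc 1 X).filter q).filter (fun p : ℕ => (p : ℝ) ≤ (X : ℝ) ^ (1 - η))).card : ℝ) +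
        ((((Finset.Icc 1 X).filter q).filter (fun p : ℕ => ¬ (p : ℝ) ≤ (X : ℝ) ^ (1 - η))).card :
          ℝ) := by
      rw [← Nat.cast_add, Finset.card_filter_add_card_filter_not]
    rw [s1]
    apply add_le_add
    · have : (((Finset.Icc 1 X).filter q).filter (fun p : ℕ => (p : ℝ) ≤ (X : ℝ) ^ (1 - η))) ⊆
          Finset.Icc 1 ⌊(X : ℝ) ^ (1 - η)⌋₊ := by
        intro p hp
        rw [Finset.mem_filter, Finset.mem_filter, Finset.mem_Icc] at hp
        rw [Finset.mem_Icc]
        exact ⟨hp.1.1.1, Nat.le_floor hp.2⟩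
      have h2 := Finset.card_le_card this
      rw [Nat.card_Icc] at h2
      refine le_trans (by exact_mod_cast h2) (Nat.floor_le (by positivity))
    · rw [le_div_iff₀ hpos, ← nsmul_eq_mul, ← Finset.sum_const]
      refine le_trans (Finset.sum_le_sum (g := fun p : ℕ => Real.log p) ?_)
        (Finset.sum_le_sum_of_subset_of_nonneg (Finset.filter_subset _ _) ?_)
      · intro p hp
        rw [Finset.mem_filter, not_le] at hp
        rw [← Real.log_rpow (by linarith)]
        exact Real.log_le_log (by positivity) hp.2.le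
      · intro p hp _
        exact Real.log_natCast_nonneg p
  rw [tendsto_order]
  constructor
  · intro a ha
    filter_upwards [(tendsto_order.1 h).1 a ha, eventually_gt_atTop 0] with X hX hX0
    have hX' : (0 : ℝ) < X := by exact_mod_cast hX0
    refine hX.trans_le ?_
    apply div_le_div_of_nonneg_right (low X) hX'.le
  · intro a ha
    have ha0 : 0 < a := hc.trans ha
    set η : ℝ := (1 - c / a) / 2 with hη
    have hca : c / a < 1 := by rw [div_lt_one ha0]; exact ha
    have hca0 : 0 < c / a := div_pos hc ha0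
    have hη0 : 0 < η := by rw [hη]; linarith
    have hη1 : η < 1 := by rw [hη]; linarith
    have hlim : c / (1 - η) < a := by
      rw [div_lt_iff₀ (by linarith)]
      have : c = a * (c / a) := by field_simp
      rw [hη]
      nlinarith
    have t1 : Tendsto (fun X : ℕ => Real.log X / (X : ℝ) ^ η) atTop (𝓝 0) :=
      ((isLittleO_log_rpow_atTop hη0).tendsto_div_nhds_zero).comp tendsto_natCast_atTop_atTop
    have t2 := t1.add (h.div_const (1 - η))
    rw [zero_add] at t2
    filter_upwards [(tendsto_order.1 t2).2 a hlim, eventually_ge_atTop 2] with X hX hX2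
    have hX' : (0 : ℝ) < X := by exact_mod_cast (by omega : 0 < X)
    have hX1 : (1 : ℝ) < X := by exact_mod_cast (by omega : 1 < X)
    have hlX : 0 < Real.log X := Real.log_pos hX1
    refine lt_of_le_of_lt ?_ hX
    have h5 := up η hη0 hη1 X hX2
    calc (((Finset.Icc 1 X).filter q).card : ℝ) * Real.log X / X
        ≤ ((X : ℝ) ^ (1 - η) + (∑ p ∈ (Finset.Icc 1 X).filter q, Real.log p) /
          ((1 - η) * Real.log X)) * Real.log X / X := by gcongr
      _ = Real.log X / (X : ℝ) ^ η +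
          (∑ p ∈ (Finset.Icc 1 X).filter q, Real.log p) / X / (1 - η) := by
          rw [Real.rpow_sub hX', Real.rpow_one]
          have h6 : (X : ℝ) ^ η ≠ 0 := (Real.rpow_pos_of_pos hX' η).ne'
          have h7 : (1 - η) ≠ 0 := by linarith
          field_simp


theorem pi_ap (m : ℕ) (hm : 1 ≤ m) (a : ℕ) (ha : Nat.Coprime a m) :
    Tendsto (fun x : ℕ => (((prm x).filter (fun q => q % m = a % m)).card : ℝ) / (x / Real.log x))
      atTop (𝓝 (1 / (Nat.totient m : ℝ))) := by
  have : NeZero m := ⟨by omega⟩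
  have hu : IsUnit ((a : ℕ) : ZMod m) := (ZMod.isUnit_iff_coprime a m).2 ha
  have htp : (0 : ℝ) < ((Nat.totient m : ℕ) : ℝ) := by exact_mod_cast Nat.totient_pos.2 (by omega)
  have h0 := Pool.Agent.Lib_helper90.PNT.pnt_residueClass (q := m) (a := ((a : ℕ) : ZMod m)) hu
  have h1 := ap_prime (fun k => if (k : ZMod m) = ((a : ℕ) : ZMod m) then 1 else 0) 1
    (fun n _ => by split_ifs <;> simp) (((Nat.totient m : ℕ) : ℝ)⁻¹) (by
      refine h0.congr fun x => ?_
      congr 1
      apply Finset.sum_congr rfl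
      intro k _
      unfold vonMangoldt.residueClass
      by_cases hk : (k : ZMod m) = ((a : ℕ) : ZMod m)
      · rw [Set.indicator_of_mem (show k ∈ {n : ℕ | (n : ZMod m) = ((a : ℕ) : ZMod m)} from hk),
          if_pos hk, one_mul]
      · rw [Set.indicator_of_notMem (show k ∉ {n : ℕ | (n : ZMod m) = ((a : ℕ) : ZMod m)} from hk),
          if_neg hk, zero_mul])
  have h2 : Tendsto (fun X : ℕ => (∑ p ∈ (Finset.Icc 1 X).filter
      (fun p => p.Prime ∧ p % m = a % m), Real.log p) / (X : ℝ)) atTop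
      (𝓝 (((Nat.totient m : ℕ) : ℝ)⁻¹)) := by
    refine h1.congr fun X => ?_
    congr 1
    rw [← Finset.filter_filter, Finset.sum_filter (fun p => p % m = a % m)]
    apply Finset.sum_congr rfl
    intro p _
    have hiff : ((p : ZMod m) = ((a : ℕ) : ZMod m)) ↔ p % m = a % m := by
      rw [ZMod.natCast_eq_natCast_iff']
    by_cases hp : p % m = a % m
    · rw [if_pos (hiff.2 hp), if_pos hp, one_mul]
    · rw [if_neg (fun h => hp (hiff.1 h)), if_neg hp, zero_mul]
  have h3 := ap_count (fun p => p.Prime ∧ p % m = a % m) (inv_pos.2 htp) h2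
  rw [← one_div] at h3
  refine h3.congr fun X => ?_
  have e : (Finset.Icc 1 X).filter (fun p => p.Prime ∧ p % m = a % m) =
      (prm X).filter (fun q => q % m = a % m) := by
    unfold prm
    rw [Finset.filter_filter]
  rw [e, div_div_eq_mul_div]

theorem ap_block (m : ℕ) (hm : 1 ≤ m) (a : ℕ) (ha : Nat.Coprime a m) :
    ∃ c : ℝ, 0 < c ∧ ∃ j₀ : ℕ, ∀ j : ℕ, j₀ ≤ j →
      c / ((j : ℝ) + 1) ≤ ∑ p ∈ (prm (8 ^ (j + 1))).filter (fun p => p % m = a % m), (1 : ℝ) / p -
        ∑ p ∈ (prm (8 ^ j)).filter (fun p => p % m = a % m), (1 : ℝ) / p := by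
  classical
  have htp : (0 : ℝ) < ((Nat.totient m : ℕ) : ℝ) := by exact_mod_cast Nat.totient_pos.2 (by omega)
  set t : ℝ := 1 / ((Nat.totient m : ℕ) : ℝ) with ht
  have ht0 : 0 < t := by positivity
  have h := pi_ap m hm a ha
  have h8 : Tendsto (fun j : ℕ => 8 ^ j) atTop (atTop : Filter ℕ) :=
    tendsto_pow_atTop_atTop_of_one_lt (by norm_num)
  have hj := (h.comp h8).eventually (Ioo_mem_nhds (show t / 2 < t by linarith)
      (show t < 3 / 2 * t by linarith))
  have hl8 : 0 < Real.log 8 := Real.log_pos (by norm_num)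
  obtain ⟨j₀, hj₀⟩ := eventually_atTop.1 hj
  refine ⟨t / (8 * Real.log 8), by positivity, max j₀ 1, fun j hjj => ?_⟩
  have hj1 : 1 ≤ j := le_trans (le_max_right _ _) hjj
  have hj2 : j₀ ≤ j := le_trans (le_max_left _ _) hjj
  have e1 := (hj₀ j hj2).2
  have e2 := (hj₀ (j + 1) (by omega)).1
  simp only [Function.comp] at e1 e2
  have hjr : (1 : ℝ) ≤ j := by exact_mod_cast hj1
  have l1 : Real.log (((8 ^ j : ℕ)) : ℝ) = j * Real.log 8 := by
    push_cast
    rw [Real.log_pow]
  have l2 : Real.log (((8 ^ (j + 1) : ℕ)) : ℝ) = (j + 1) * Real.log 8 := by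
    push_cast
    rw [Real.log_pow]
    push_cast
    ring
  have hP : (0 : ℝ) < (8 : ℝ) ^ j := by positivity
  have p1 : (0 : ℝ) < ((8 ^ j : ℕ) : ℝ) / Real.log (((8 ^ j : ℕ)) : ℝ) := by
    rw [l1]; push_cast; positivity
  have p2 : (0 : ℝ) < ((8 ^ (j + 1) : ℕ) : ℝ) / Real.log (((8 ^ (j + 1) : ℕ)) : ℝ) := by
    rw [l2]; push_cast; positivity
  rw [div_lt_iff₀ p1] at e1
  rw [lt_div_iff₀ p2] at e2
  rw [l1] at e1
  rw [l2] at e2
  push_cast at e1 e2
  set N1 : ℝ := (((prm (8 ^ j)).filter (fun q => q % m = a % m)).card : ℝ) with hN1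
  set N2 : ℝ := (((prm (8 ^ (j + 1))).filter (fun q => q % m = a % m)).card : ℝ) with hN2
  have hsub : (prm (8 ^ j)).filter (fun q => q % m = a % m) ⊆
      (prm (8 ^ (j + 1))).filter (fun q => q % m = a % m) := by
    intro p hp
    unfold prm at hp ⊢
    simp only [Finset.mem_filter, Finset.mem_Icc] at hp ⊢
    refine ⟨⟨⟨hp.1.1.1, hp.1.1.2.trans ?_⟩, hp.1.2⟩, hp.2⟩
    exact Nat.pow_le_pow_right (by norm_num) (by omega)
  rw [← Finset.sum_sdiff hsub, add_sub_cancel_right]
  have hcard : (((prm (8 ^ (j + 1))).filter (fun q => q % m = a % m) \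
      (prm (8 ^ j)).filter (fun q => q % m = a % m)).card : ℝ) = N2 - N1 := by
    rw [Finset.card_sdiff_of_subset hsub, Nat.cast_sub (Finset.card_le_card hsub)]
  have hlow : (N2 - N1) * (1 / (8 : ℝ) ^ (j + 1)) ≤
      ∑ p ∈ (prm (8 ^ (j + 1))).filter (fun q => q % m = a % m) \
        (prm (8 ^ j)).filter (fun q => q % m = a % m), (1 : ℝ) / p := by
    rw [← hcard, ← nsmul_eq_mul, ← Finset.sum_const]
    apply Finset.sum_le_sum
    intro p hp
    have hp' := (Finset.mem_filter.1 (Finset.mem_sdiff.1 hp).1).1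
    unfold prm at hp'
    simp only [Finset.mem_filter, Finset.mem_Icc] at hp'
    apply one_div_le_one_div_of_le
    · exact_mod_cast hp'.1.1
    · exact_mod_cast hp'.1.2
  refine le_trans ?_ hlow
  have e3 : N1 ≤ 3 * t * ((8 : ℝ) ^ j / ((j + 1) * Real.log 8)) := by
    refine e1.le.trans ?_
    have : (8 : ℝ) ^ j / (j * Real.log 8) ≤ 2 * ((8 : ℝ) ^ j / ((j + 1) * Real.log 8)) := by
      rw [← mul_div_assoc, div_le_div_iff₀ (by positivity) (by positivity)]
      nlinarith [mul_pos hP hl8]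
    nlinarith
  have e4 : 4 * t * ((8 : ℝ) ^ j / ((j + 1) * Real.log 8)) ≤ N2 := by
    refine le_trans (le_of_eq ?_) e2.le
    rw [pow_succ]
    ring
  have e5 : t * ((8 : ℝ) ^ j / ((j + 1) * Real.log 8)) ≤ N2 - N1 := by linarith
  have e6 := mul_le_mul_of_nonneg_right e5 (show (0 : ℝ) ≤ 1 / (8 : ℝ) ^ (j + 1) by positivity)
  refine le_trans (le_of_eq ?_) e6
  rw [pow_succ]
  field_simp

/-- Mertens for a residue class, lower bound -/
theorem inv_ap (m : ℕ) (hm : 1 ≤ m) (a : ℕ) (ha : Nat.Coprime a m) : ∃ c : ℝ, 0 < c ∧ ∃ x₀ : ℕ, ∀ x : ℕ, x₀ ≤ x →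
    c * Real.log (Real.log x) ≤ ∑ p ∈ (prm x).filter (fun p => p % m = a % m), (1 : ℝ) / p := by
  classical
  obtain ⟨c, hc, j₀, hb⟩ := ap_block m hm a ha
  set S : ℕ → ℝ := fun x => ∑ p ∈ (prm x).filter (fun p => p % m = a % m), (1 : ℝ) / p with hS
  have hmono : ∀ x y : ℕ, x ≤ y → S x ≤ S y := by
    intro x y hxy
    apply Finset.sum_le_sum_of_subset_of_nonneg
    · intro p hp
      unfold prm at hp ⊢
      simp only [Finset.mem_filter, Finset.mem_Icc] at hp ⊢
      exact ⟨⟨⟨hp.1.1.1, hp.1.1.2.trans hxy⟩, hp.1.2⟩, hp.2⟩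
    · intro p _ _
      positivity
  have hS0 : ∀ x, 0 ≤ S x := fun x => Finset.sum_nonneg (fun p _ => by positivity)
  have hind : ∀ J : ℕ, j₀ ≤ J → c * (((harmonic J : ℚ) : ℝ) - ((harmonic j₀ : ℚ) : ℝ)) ≤ S (8 ^ J) := by
    intro J hJ
    induction J, hJ using Nat.le_induction with
    | base => simpa using hS0 _
    | succ J hJ ih =>
      have h1 := hb J hJ
      have h2 : (((harmonic (J + 1) : ℚ)) : ℝ) = ((harmonic J : ℚ) : ℝ) + 1 / ((J : ℝ) + 1) := by
        rw [harmonic_succ]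
        push_cast
        rw [one_div]
      rw [h2]
      have h3 : c / ((J : ℝ) + 1) ≤ S (8 ^ (J + 1)) - S (8 ^ J) := h1
      have h4 : c / ((J : ℝ) + 1) = c * (1 / ((J : ℝ) + 1)) := by ring
      nlinarith
  have hl8 : 1 < Real.log 8 := by
    have : Real.exp 1 < 8 := by
      have := Real.exp_one_lt_d9
      linarith
    rw [Real.lt_log_iff_exp_lt (by norm_num)]
    exact this
  set H : ℝ := Real.log (Real.log 8) + ((harmonic j₀ : ℚ) : ℝ) with hH
  have hev : ∀ᶠ x : ℕ in atTop, 2 * H ≤ Real.log (Real.log x) :=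
    (Real.tendsto_log_atTop.comp (Real.tendsto_log_atTop.comp
      tendsto_natCast_atTop_atTop)).eventually_ge_atTop (2 * H)
  have hev2 : ∀ᶠ x : ℕ in atTop, 0 < Real.log (Real.log x) :=
    (Real.tendsto_log_atTop.comp (Real.tendsto_log_atTop.comp
      tendsto_natCast_atTop_atTop)).eventually_gt_atTop 0
  obtain ⟨x₁, hx₁⟩ := eventually_atTop.1 (hev.and hev2)
  refine ⟨c / 2, by positivity, max x₁ (8 ^ (j₀ + 1)), fun x hx => ?_⟩
  have hxa : x₁ ≤ x := le_trans (le_max_left _ _) hx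
  have hxb : 8 ^ (j₀ + 1) ≤ x := le_trans (le_max_right _ _) hx
  have hx8 : 8 ≤ x := le_trans (by
    calc 8 = 8 ^ 1 := by norm_num
      _ ≤ 8 ^ (j₀ + 1) := Nat.pow_le_pow_right (by norm_num) (by omega)) hxb
  have hx0 : x ≠ 0 := by omega
  set J : ℕ := Nat.log 8 x with hJ
  have hJ1 : 8 ^ J ≤ x := Nat.pow_log_le_self 8 hx0
  have hJ2 : x < 8 ^ (J + 1) := Nat.lt_pow_succ_log_self (by norm_num) x
  have hJ3 : j₀ ≤ J := by
    have : j₀ + 1 ≤ J := Nat.le_log_of_pow_le (by norm_num) hxb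
    omega
  have h1 := hind J hJ3
  have h2 : S (8 ^ J) ≤ S x := hmono _ _ hJ1
  have h3 : Real.log ((J : ℝ) + 1) ≤ ((harmonic J : ℚ) : ℝ) := by
    have := log_add_one_le_harmonic J
    exact_mod_cast this
  have hxr : (8 : ℝ) ≤ x := by exact_mod_cast hx8
  have hlx : 0 < Real.log x := Real.log_pos (by linarith)
  have h4 : Real.log x ≤ ((J : ℝ) + 1) * Real.log 8 := by
    have h5 : (x : ℝ) ≤ (8 : ℝ) ^ (J + 1) := by exact_mod_cast hJ2.le
    have h6 := Real.log_le_log (by linarith) h5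
    rw [Real.log_pow] at h6
    push_cast at h6
    exact h6
  have h5 : Real.log (Real.log x) ≤ Real.log ((J : ℝ) + 1) + Real.log (Real.log 8) := by
    rw [← Real.log_mul (by positivity) (by linarith)]
    exact Real.log_le_log hlx h4
  obtain ⟨h6, h7⟩ := hx₁ x hxa
  have h8 : c * (Real.log (Real.log x) - H) ≤ S x := by
    refine le_trans ?_ (h1.trans h2)
    apply mul_le_mul_of_nonneg_left _ hc.le
    rw [hH]
    linarith
  have h9 : c / 2 * Real.log (Real.log x) ≤ c * (Real.log (Real.log x) - H) := by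
    have : c / 2 * Real.log (Real.log x) = c * (Real.log (Real.log x) / 2) := by ring
    rw [this]
    apply mul_le_mul_of_nonneg_left _ hc.le
    linarith
  exact h9.trans h8

end Pool.Agent.PQ
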